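import Mathlib

/-!
Reducibilities between reals and between functions on reals.
-/

namespace Pool.Agent.Lib.MP_5684f0_lc

/-- Cantor space. -/
abbrev Cs := ℕ → Bool

/-- The characteristic function of a real, as an oracle. -/
def chi (x : Cs) : ℕ →. ℕ := fun n => Part.some (if x n then 1 else 0)

/-- Turing reducibility. -/
def leT (x y : Cs) : Prop := TuringReducible (chi x) (chi y)

/-- Many-one reducibility. -/
def leM (x y : Cs) : Prop := ∃ ρ : ℕ → ℕ, Computable ρ ∧ ∀ n, x n = y (ρ n)

/-- Many-one reducibility by a total function computable from `c`. -/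
def leMc (c x y : Cs) : Prop :=
  ∃ ρ : ℕ → ℕ, TuringReducible (fun n => Part.some (ρ n)) (chi c) ∧ ∀ n, x n = y (ρ n)

/-- `f x` is `c`-many-one reducible to `g x` for all `x` in the cone with base `c`. -/
def leCone (f g : Cs → Cs) : Prop := ∃ c, ∀ x, leT c x → leMc c (f x) (g x)

/-- The pointwise complement. -/
def cpl (g : Cs → Cs) : Cs → Cs := fun x n => !g x n

/-- Baire class one: each set `{x | f x a = b}` is a countable intersection of open sets. -/
def BaireOne (f : Cs → Cs) : Prop := ∀ a b, IsGδ {x | f x a = b}

/-- On some cone `f` is order preserving from Turing to many-one reducibility, and `f` is of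
Baire class one along a continuous map that preserves the Turing degrees in this cone. -/
def Tame (f : Cs → Cs) : Prop :=
  ∃ c, (∀ x y, leT c x → leT x y → leM (f x) (f y)) ∧
    ∃ π : Cs → Cs, Continuous π ∧ (∀ x, leT c x → leT (π x) x ∧ leT x (π x)) ∧ BaireOne (f ∘ π)

end Pool.Agent.Lib.MP_5684f0_lc
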