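import Pool.Agent.Lib.MP_5684f0_lc.Defs

-- part Pool.Agent.Lib.MP_5684f0_lc.Comp
section

/-!
Basic facts on oracle computability.
-/

namespace Pool.Agent.Lib.MP_5684f0_lc

open Filter Topology

/-- The total function `g` is computable from `y`. -/
def Rec (y : Cs) (g : ℕ → ℕ) : Prop := Nat.RecursiveIn {chi y} (fun n => Part.some (g n))

/-- A bit as a number. -/
def bit (b : Bool) : ℕ := if b then 1 else 0

theorem bit_inj {a b : Bool} (h : bit a = bit b) : a = b := by
  cases a <;> cases b <;> simp_all [bit]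

theorem leT_iff {x y : Cs} : leT x y ↔ Rec y (fun n => bit (x n)) :=
  RecursiveIn.iff_nat

theorem tr_iff {ρ : ℕ → ℕ} {c : Cs} :
    TuringReducible (fun n => Part.some (ρ n)) (chi c) ↔ Rec c ρ := RecursiveIn.iff_nat

theorem leT_refl (x : Cs) : leT x x := TuringReducible.refl _

theorem leT.trans {x y z : Cs} (h : leT x y) (h' : leT y z) : leT x z :=
  TuringReducible.trans h h'

theorem Rec.mono {c c' : Cs} {ρ : ℕ → ℕ} (h : Rec c ρ) (hc : leT c c') : Rec c' ρ :=
  tr_iff.1 (TuringReducible.trans (tr_iff.2 h) hc)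

theorem Rec.of_computable {y : Cs} {g : ℕ → ℕ} (h : Computable g) : Rec y g :=
  RecursiveIn.iff_nat.1 (Partrec.recursiveIn h.partrec)

theorem Rec.of_primrec {y : Cs} {g : ℕ → ℕ} (h : Primrec g) : Rec y g :=
  .of_computable h.to_comp

theorem Rec.comp {y : Cs} {f g : ℕ → ℕ} (hf : Rec y f) (hg : Rec y g) :
    Rec y (fun n => f (g n)) :=
  (Nat.RecursiveIn.comp hf hg).of_eq fun n => by simp

theorem Rec.pair {y : Cs} {f g : ℕ → ℕ} (hf : Rec y f) (hg : Rec y g) :
    Rec y (fun n => Nat.pair (f n) (g n)) :=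
  (Nat.RecursiveIn.pair hf hg).of_eq fun n => by simp [Seq.seq]

theorem Rec.congr {y : Cs} {f g : ℕ → ℕ} (hf : Rec y f) (h : ∀ n, f n = g n) : Rec y g :=
  (funext h : f = g) ▸ hf

theorem Rec.left {y : Cs} : Rec y (fun n => n.unpair.1) :=
  .of_primrec (Primrec.fst.comp Primrec.unpair)

theorem Rec.right {y : Cs} : Rec y (fun n => n.unpair.2) :=
  .of_primrec (Primrec.snd.comp Primrec.unpair)

theorem Rec.id {y : Cs} : Rec y (fun n => n) := .of_primrec Primrec.id

theorem Rec.const {y : Cs} (k : ℕ) : Rec y (fun _ => k) := .of_primrec (Primrec.const k)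

theorem Rec.self (y : Cs) : Rec y (fun n => bit (y n)) := leT_iff.1 (leT_refl y)

/-- Unbounded search. -/
theorem Rec.find {y : Cs} {g : ℕ → ℕ} (hg : Rec y g) (h : ∀ n, ∃ s, g (Nat.pair n s) = 0) :
    Rec y (fun n => Nat.find (h n)) := by
  refine (Nat.RecursiveIn.rfind hg).of_eq fun n => ?_
  refine Part.eq_some_iff.2 (Nat.mem_rfind.2 ⟨?_, fun {m} hm => ?_⟩)
  · simp [Nat.find_spec (h n)]
  · simp [Nat.find_min (h n) hm]

theorem leT_reindex (x : Cs) {π : ℕ → ℕ} (hπ : Computable π) : leT (fun n => x (π n)) x :=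
  leT_iff.2 ((Rec.self x).comp (.of_computable hπ))

theorem computable_pair_left (l : ℕ) : Computable (fun n => Nat.pair l n) :=
  (Primrec₂.natPair.comp (Primrec.const l) Primrec.id).to_comp

theorem exists_upper (c : ℕ → Cs) : ∃ d, ∀ l, leT (c l) d := by
  refine ⟨fun n => c n.unpair.1 n.unpair.2, fun l => ?_⟩
  simpa using leT_reindex (fun n => c n.unpair.1 n.unpair.2) (computable_pair_left l)

theorem exists_upper2 (c c' : Cs) : ∃ d, leT c d ∧ leT c' d := by
  obtain ⟨d, hd⟩ := exists_upper (fun l => if l = 0 then c else c')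
  exact ⟨d, by simpa using hd 0, by simpa using hd 1⟩

theorem exists_rec (ρ : ℕ → ℕ) : ∃ c, Rec c ρ := by
  refine ⟨fun p => decide (ρ p.unpair.1 ≠ p.unpair.2), ?_⟩
  have h : ∀ n, ∃ s, bit (decide (ρ (Nat.pair n s).unpair.1 ≠ (Nat.pair n s).unpair.2)) = 0 :=
    fun n => ⟨ρ n, by simp [bit]⟩
  refine ((Rec.self (fun p => decide (ρ p.unpair.1 ≠ p.unpair.2))).find h).congr fun n => ?_
  have := Nat.find_spec (h n)
  generalize Nat.find (h n) = s at this
  symm
  simpa [bit] using this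

/-- A code of the first `s` bits of `y`. -/
def pre (y : Cs) : ℕ → ℕ
  | 0 => 0
  | s + 1 => Nat.pair (pre y s) (bit (y s))

theorem pre_inj {y y' : Cs} : ∀ {s : ℕ}, pre y' s = pre y s → y' ∈ PiNat.cylinder y s
  | 0, _ => by simp
  | s + 1, h => by
    simp only [pre, Nat.pair_eq_pair] at h
    intro i hi
    rcases Nat.lt_succ_iff_lt_or_eq.1 hi with hi | rfl
    · exact pre_inj h.1 i hi
    · exact bit_inj h.2

theorem rec_pre (y : Cs) : Rec y (pre y) := by
  have hh : Rec y (fun p => Nat.pair p.unpair.2.unpair.2 (bit (y p.unpair.2.unpair.1))) :=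
    (Rec.right.comp Rec.right).pair ((Rec.self y).comp (Rec.left.comp Rec.right))
  have hp := Nat.RecursiveIn.prec (Rec.const (y := y) 0) hh
  refine (Nat.RecursiveIn.comp hp ((Rec.const 0).pair Rec.id)).of_eq ?_
  intro j
  simp only [Part.bind_eq_bind, Part.bind_some, Nat.unpair_pair]
  induction j with
  | zero => simp [pre]
  | succ j ih =>
    simp only [ih]
    simp [pre]

/-- Locally constant on `Y`. -/
def LC {α : Type*} (Y : Set Cs) (φ : Cs → α) : Prop :=
  ∀ y ∈ Y, ∀ᶠ y' in 𝓝[Y] y, φ y' = φ y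

theorem exists_cyl_subset {U : Set Cs} {x : Cs} (h : U ∈ 𝓝 x) :
    ∃ s, PiNat.cylinder x s ⊆ U := by
  obtain ⟨t, ⟨z, s, rfl⟩, hx, ht⟩ :=
    (PiNat.isTopologicalBasis_cylinders (fun _ : ℕ => Bool)).mem_nhds_iff.1 h
  exact ⟨s, by rwa [PiNat.mem_cylinder_iff_eq.1 hx]⟩

theorem cyl_mem_nhds (x : Cs) (s : ℕ) : PiNat.cylinder x s ∈ 𝓝 x :=
  (PiNat.isOpen_cylinder (fun _ : ℕ => Bool) x s).mem_nhds (PiNat.self_mem_cylinder x s)

open Classical in
/-- A map that is continuous on `Y` is computable there from the argument and a parameter. -/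
theorem exists_leT_of_lc {Y : Set Cs} {θ : Cs → Cs} (h : ∀ n, LC Y (fun y => θ y n)) :
    ∃ c, ∀ y ∈ Y, leT c y → leT (θ y) y := by
  let P : ℕ → ℕ → ℕ → Bool → Prop := fun n s k b => ∀ y ∈ Y, pre y s = k → θ y n = b
  let T : ℕ → ℕ := fun p =>
    if P p.unpair.1 p.unpair.2.unpair.1 p.unpair.2.unpair.2 true then 2
    else if P p.unpair.1 p.unpair.2.unpair.1 p.unpair.2.unpair.2 false then 1 else 0
  obtain ⟨c, hc⟩ := exists_rec T
  refine ⟨c, fun y hy hcy => ?_⟩
  have hT : Rec y T := hc.mono hcy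
  have hG : Rec y (fun p => T (Nat.pair p.unpair.1 (Nat.pair p.unpair.2 (pre y p.unpair.2)))) :=
    hT.comp (Rec.left.pair (Rec.right.pair ((rec_pre y).comp Rec.right)))
  have h1 : Rec y (fun p =>
      1 - T (Nat.pair p.unpair.1 (Nat.pair p.unpair.2 (pre y p.unpair.2)))) :=
    (Rec.of_primrec (Primrec.nat_sub.comp (Primrec.const 1) Primrec.id)).comp hG
  have hex : ∀ n, ∃ s, 1 - T (Nat.pair (Nat.pair n s).unpair.1
      (Nat.pair (Nat.pair n s).unpair.2 (pre y (Nat.pair n s).unpair.2))) = 0 := by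
    intro n
    obtain ⟨U, hU, hUs⟩ := mem_nhdsWithin_iff_exists_mem_nhds_inter.1 (h n y hy)
    obtain ⟨s, hs⟩ := exists_cyl_subset hU
    refine ⟨s, ?_⟩
    have hP : P n s (pre y s) (θ y n) := fun y' hy' he => hUs ⟨hs (pre_inj he), hy'⟩
    simp only [T, Nat.unpair_pair]
    split_ifs with ha hb
    · rfl
    · rfl
    · cases hθ : θ y n <;> rw [hθ] at hP <;> contradiction
  have h2 := (Rec.of_primrec (Primrec.nat_sub.comp Primrec.id (Primrec.const 1))).comp
    (hG.comp (Rec.id.pair (h1.find hex)))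
  refine leT_iff.2 (h2.congr fun n => ?_)
  have hs := Nat.find_spec (hex n)
  generalize Nat.find (hex n) = s at hs
  simp only [T, Nat.unpair_pair, id] at hs ⊢
  split_ifs at hs ⊢ with ha hb
  · rw [ha y hy rfl]; rfl
  · rw [hb y hy rfl]; rfl

/-- The join of two reals. -/
def join (x c : Cs) : Cs := fun n => if n % 2 = 0 then x (n / 2) else c (n / 2)

theorem leT_join_left (x c : Cs) : leT x (join x c) := by
  have := leT_reindex (join x c) (π := fun n => 2 * n)
    (Primrec.nat_mul.comp (Primrec.const 2) Primrec.id).to_comp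
  simpa [join] using this

theorem leT_join_right (x c : Cs) : leT c (join x c) := by
  have := leT_reindex (join x c) (π := fun n => 2 * n + 1)
    (Primrec.succ.comp (Primrec.nat_mul.comp (Primrec.const 2) Primrec.id)).to_comp
  have e : (fun n => join x c (2 * n + 1)) = c := by
    funext n
    have h1 : (2 * n + 1) % 2 = 1 := by omega
    have h2 : (2 * n + 1) / 2 = n := by omega
    simp [join, h1, h2]
  rwa [e] at this

theorem join_leT {x c y : Cs} (hx : leT x y) (hc : leT c y) : leT (join x c) y := by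
  have hd : Rec y (fun n => n / 2) :=
    .of_primrec (Primrec.nat_div.comp Primrec.id (Primrec.const 2))
  have h1 := Rec.id.pair (((leT_iff.1 hx).comp hd).pair ((leT_iff.1 hc).comp hd))
  have hφ : Primrec (fun p : ℕ =>
      if p.unpair.1 % 2 = 0 then p.unpair.2.unpair.1 else p.unpair.2.unpair.2) := by
    have a := Primrec.fst.comp Primrec.unpair
    have b := Primrec.snd.comp Primrec.unpair
    exact Primrec.ite (Primrec.eq.comp (Primrec.nat_mod.comp a (Primrec.const 2))
      (Primrec.const 0)) (a.comp b) (b.comp b)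
  refine leT_iff.2 (((Rec.of_primrec hφ).comp h1).congr fun n => ?_)
  simp only [Nat.unpair_pair, join]
  split_ifs <;> rfl

theorem continuous_join (c : Cs) : Continuous (fun x => join x c) := by
  refine continuous_pi fun n => ?_
  unfold join
  split_ifs
  · exact continuous_apply _
  · exact continuous_const

/-- The computable functions form a sequence. -/
theorem exists_enum : ∃ e : ℕ → ℕ → ℕ, ∀ ρ, Computable ρ → ∃ m, e m = ρ := by
  classical
  refine ⟨fun m n => if h : ((Denumerable.ofNat Nat.Partrec.Code m).eval n).Dom then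
    ((Denumerable.ofNat Nat.Partrec.Code m).eval n).get h else 0, fun ρ hρ => ?_⟩
  obtain ⟨c, hc⟩ := Nat.Partrec.Code.exists_code.1 (Partrec.nat_iff.1 hρ.partrec)
  refine ⟨Encodable.encode c, funext fun n => ?_⟩
  simp [hc]

theorem leCone_of {f g f' g' : Cs → Cs} {c c' : Cs} (h : leCone f' g')
    (hf : ∀ x, leT c x → leM (f x) (f' x)) (hg : ∀ x, leT c' x → leM (g' x) (g x)) :
    leCone f g := by
  obtain ⟨d, hd⟩ := h
  obtain ⟨e, he, he'⟩ := exists_upper2 c c'
  obtain ⟨u, hu, hu'⟩ := exists_upper2 d e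
  refine ⟨u, fun x hx => ?_⟩
  obtain ⟨ρ, hρ, h1⟩ := hf x (he.trans (hu'.trans hx))
  obtain ⟨σ, hσ, h2⟩ := hd x (hu.trans hx)
  obtain ⟨τ, hτ, h3⟩ := hg x (he'.trans (hu'.trans hx))
  refine ⟨fun n => τ (σ (ρ n)), tr_iff.2 ((Rec.of_computable hτ).comp
    (((tr_iff.1 hσ).mono hu).comp (.of_computable hρ))), fun n => ?_⟩
  rw [h1, h2, h3]

end Pool.Agent.Lib.MP_5684f0_lc
end

-- part Pool.Agent.Lib.MP_5684f0_lc.Force
section

/-!
Sigma-ideals, positive closures, and deciding a countable cover of the space of sequences.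
-/

namespace Pool.Agent.Lib.MP_5684f0_lc

open Filter Topology Set PiNat

/-- A sigma-ideal on Cantor space. -/
structure SId where
  N : Set Cs → Prop
  empty : N ∅
  mono : ∀ {A B}, A ⊆ B → N B → N A
  iUnion : ∀ A : ℕ → Set Cs, (∀ n, N (A n)) → N (⋃ n, A n)

theorem SId.iUnion' (I : SId) {ι : Type*} [Countable ι] (A : ι → Set Cs) (h : ∀ n, I.N (A n)) :
    I.N (⋃ n, A n) := by
  rcases isEmpty_or_nonempty ι with hι | hι
  · simpa using I.empty
  · obtain ⟨e, he⟩ := exists_surjective_nat ι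
    rw [← he.iUnion_comp]
    exact I.iUnion _ fun n => h _

theorem SId.union (I : SId) {A B : Set Cs} (hA : I.N A) (hB : I.N B) : I.N (A ∪ B) := by
  rw [union_eq_iUnion]
  exact I.iUnion' _ fun b => by cases b <;> simpa

theorem SId.nonempty (I : SId) {A : Set Cs} (hA : ¬ I.N A) : A.Nonempty := by
  rcases A.eq_empty_or_nonempty with rfl | h
  · exact absurd I.empty hA
  · exact h

/-- The positive closure. -/
def SId.clp (I : SId) (A : Set Cs) : Set Cs := {x | ∀ s, ¬ I.N (A ∩ cylinder x s)}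

theorem SId.clp_mono (I : SId) {A B : Set Cs} (h : A ⊆ B) : I.clp A ⊆ I.clp B :=
  fun _ hx s hN => hx s (I.mono (inter_subset_inter_left _ h) hN)

theorem cyl_eq_dense (x : Cs) (s : ℕ) :
    ∃ n, cylinder (TopologicalSpace.denseSeq Cs n) s = cylinder x s := by
  obtain ⟨n, hn⟩ := (TopologicalSpace.denseRange_denseSeq Cs).exists_mem_open
    (isOpen_cylinder (fun _ : ℕ => Bool) x s) ⟨x, self_mem_cylinder x s⟩
  exact ⟨n, mem_cylinder_iff_eq.1 hn⟩

theorem SId.diff_clp (I : SId) (A : Set Cs) : I.N (A \ I.clp A) := by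
  classical
  refine I.mono ?_ (I.iUnion' (fun p : ℕ × ℕ =>
    if I.N (A ∩ cylinder (TopologicalSpace.denseSeq Cs p.1) p.2) then
      A ∩ cylinder (TopologicalSpace.denseSeq Cs p.1) p.2 else ∅) fun p => ?_)
  · rintro x ⟨hx, hx'⟩
    simp only [SId.clp, mem_ofPred_eq, not_forall, not_not] at hx'
    obtain ⟨s, hs⟩ := hx'
    obtain ⟨n, hn⟩ := cyl_eq_dense x s
    refine mem_iUnion.2 ⟨(n, s), ?_⟩
    simp only [hn, hs, if_true]
    exact ⟨hx, self_mem_cylinder x s⟩
  · split_ifs with h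
    · exact h
    · exact I.empty

theorem SId.exists_clp (I : SId) {A : Set Cs} (hA : ¬ I.N A) : ∃ x ∈ A, x ∈ I.clp A := by
  by_contra h
  push Not at h
  exact hA (I.mono (fun x hx => (⟨hx, h x hx⟩ : x ∈ A \ I.clp A)) (I.diff_clp A))

theorem isClosed_cyl (x : Cs) (s : ℕ) : IsClosed (cylinder x s) := by
  rw [cylinder_eq_pi]
  exact isClosed_set_pi fun _ _ => isClosed_discrete _

/-- The space of sequences of reals. -/
abbrev W := ℕ → Cs

/-- A basic clopen subset of `W`. -/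
def box (w : W) (s : ℕ) : Set W := {v | ∀ m < s, v m ∈ cylinder (w m) s}

theorem self_mem_box (w : W) (s : ℕ) : w ∈ box w s := fun m _ => self_mem_cylinder (w m) s

theorem box_eq_pi (w : W) (s : ℕ) :
    box w s = Set.pi (Iio s) (fun m => cylinder (w m) s) := rfl

theorem isOpen_box (w : W) (s : ℕ) : IsOpen (box w s) :=
  isOpen_set_pi (finite_Iio s) fun m _ => isOpen_cylinder (fun _ : ℕ => Bool) (w m) s

theorem isClosed_box (w : W) (s : ℕ) : IsClosed (box w s) :=
  isClosed_set_pi fun m _ => isClosed_cyl (w m) s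

theorem exists_box_subset {O : Set W} {w : W} (h : O ∈ 𝓝 w) : ∃ s, box w s ⊆ O := by
  rw [nhds_pi, Filter.mem_pi] at h
  obtain ⟨J, hJ, t, ht, hs⟩ := h
  choose s hs' using fun m => exists_cyl_subset (ht m)
  obtain ⟨M, hM⟩ := (hJ.image (fun m => max (m + 1) (s m))).bddAbove
  refine ⟨M, fun v hv => hs fun m hm => ?_⟩
  have h1 : max (m + 1) (s m) ≤ M := hM (mem_image_of_mem _ hm)
  exact hs' m (cylinder_anti _ (by omega) (hv m (by omega)))

/-- A condition: a positive set in each coordinate. -/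
def Cond (J : ℕ → SId) (p : ℕ → Set Cs) : Prop := ∀ m, ¬ (J m).N (p m)

/-- Below `q`, every open superset of `Z` can be entered by a clopen refinement. -/
def Decides (J : ℕ → SId) (q : ℕ → Set Cs) (Z : Set W) : Prop :=
  ∀ r, Cond J r → (∀ m, r m ⊆ q m) → ∀ O, IsOpen O → Z ⊆ O →
    ∃ w s, box w s ⊆ O ∧ ∀ m < s, ¬ (J m).N (r m ∩ cylinder (w m) s)

theorem exists_decides (J : ℕ → SId) {Z : ℕ → Set W} (hZ : ∀ w, ∃ d, w ∈ Z d)
    {p : ℕ → Set Cs} (hp : Cond J p) :
    ∃ q d, Cond J q ∧ (∀ m, q m ⊆ p m) ∧ Decides J q (Z d) := by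
  by_contra hcon
  have step : ∀ (q : {q // Cond J q ∧ ∀ m, q m ⊆ p m}) (t : ℕ),
      ∃ q' : {q // Cond J q ∧ ∀ m, q m ⊆ p m}, (∀ m, q'.1 m ⊆ q.1 m) ∧
        (∀ m, ∃ x, q'.1 m ⊆ cylinder x t) ∧
        ∃ O, IsOpen O ∧ Z t ⊆ O ∧ ∀ w s, box w s ⊆ O →
          ∃ m < s, (J m).N (q'.1 m ∩ cylinder (w m) s) := by
    intro q t
    have h : ¬ Decides J q.1 (Z t) := fun h => hcon ⟨q.1, t, q.2.1, q.2.2, h⟩
    simp only [Decides, not_forall, not_exists, not_and, not_not] at h
    obtain ⟨r, hr, hrq, O, hO, hZO, h⟩ := h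
    choose x _ hx using fun m => (J m).exists_clp (hr m)
    refine ⟨⟨fun m => r m ∩ cylinder (x m) t, fun m => hx m t,
      fun m => inter_subset_left.trans ((hrq m).trans (q.2.2 m))⟩,
      fun m => inter_subset_left.trans (hrq m), fun m => ⟨x m, inter_subset_right⟩,
      O, hO, hZO, fun w s hb => ?_⟩
    obtain ⟨m, hm, hN⟩ := h w s hb
    exact ⟨m, hm, (J m).mono (inter_subset_inter_left _ inter_subset_left) hN⟩
  choose nx h1 h2 O hO hZO h3 using step
  let P : ℕ → {q // Cond J q ∧ ∀ m, q m ⊆ p m} :=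
    fun t => Nat.rec ⟨p, hp, fun _ => Subset.rfl⟩ (fun t q => nx q t) t
  have hP : ∀ t, P (t + 1) = nx (P t) t := fun t => rfl
  have hanti : ∀ m, Antitone (fun t => (P t).1 m) := fun m =>
    antitone_nat_of_succ_le fun t => by rw [hP]; exact h1 _ _ m
  have hlim : ∀ m, ∃ x, ∀ t, x ∈ closure ((P t).1 m) := by
    intro m
    obtain ⟨x, hx⟩ := IsCompact.nonempty_iInter_of_sequence_nonempty_isCompact_isClosed
      (fun t => closure ((P t).1 m)) (fun t => closure_mono (hanti m (Nat.le_succ t)))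
      (fun t => ((J m).nonempty ((P t).2.1 m)).closure) isClosed_closure.isCompact
      (fun t => isClosed_closure)
    exact ⟨x, mem_iInter.1 hx⟩
  choose w hw using hlim
  obtain ⟨d, hd⟩ := hZ w
  obtain ⟨s, hs⟩ := exists_box_subset ((hO (P d) d).mem_nhds (hZO _ _ hd))
  obtain ⟨m, -, hN⟩ := h3 _ _ w s hs
  refine (P (max d s + 1)).2.1 m ((J m).mono (subset_inter ?_ ?_) hN)
  · exact hanti m (show d + 1 ≤ max d s + 1 by omega)
  · obtain ⟨x, hx⟩ := h2 (P (max d s)) (max d s) m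
    have hwx : w m ∈ cylinder x (max d s) :=
      closure_minimal hx (isClosed_cyl _ _) (hw m (max d s + 1))
    refine hx.trans ?_
    rw [← mem_cylinder_iff_eq.1 hwx]
    exact cylinder_anti _ (le_max_right _ _)

/-- All tails are decided at once. -/
theorem exists_base (I : ℕ → SId) (hI : ∀ m, ¬ (I m).N univ) {Z : ℕ → Set W}
    (hZ : ∀ w, ∃ d, w ∈ Z d) :
    ∃ (A : ℕ → Set Cs) (d : ℕ → ℕ), Cond I A ∧ ∀ i r, Cond I r → (∀ m, r m ⊆ A m) →
      ∀ O, IsOpen O → Z (d i) ⊆ O →
        ∃ w s, box w s ⊆ O ∧ ∀ m < s, ¬ (I (m + i)).N (r (m + i) ∩ cylinder (w m) s) := by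
  have step : ∀ i (p : {p // Cond (fun m => I (m + i)) p}), ∃ q d,
      Cond (fun m => I (m + i)) q ∧ (∀ m, q m ⊆ p.1 m) ∧ Decides (fun m => I (m + i)) q (Z d) :=
    fun i p => exists_decides _ hZ p.2
  choose q d h1 h2 h3 using step
  let P : ∀ i, {p // Cond (fun m => I (m + i)) p} := fun i =>
    Nat.rec (motive := fun i => {p // Cond (fun m => I (m + i)) p})
      ⟨fun _ => univ, fun m => hI _⟩
      (fun i p => ⟨fun m => q i p (m + 1), fun m => by
        have := h1 i p (m + 1)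
        simp only [Nat.add_right_comm m 1 i] at this
        exact this⟩) i
  have hP : ∀ i m, (P (i + 1)).1 m = q i (P i) (m + 1) := fun i m => rfl
  have key : ∀ m i, q (m + i) (P (m + i)) 0 ⊆ q i (P i) m := by
    intro m
    induction m with
    | zero => intro i; rw [Nat.zero_add]
    | succ m ih =>
      intro i
      rw [show m + 1 + i = m + (i + 1) by omega, ← hP]
      exact (ih (i + 1)).trans (h2 _ _ m)
  refine ⟨fun i => q i (P i) 0, fun i => d i (P i), fun i => ?_, fun i r hr hrA O hO hZO => ?_⟩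
  · simpa using h1 i (P i) 0
  · exact h3 i (P i) (fun m => r (m + i)) (fun m => hr _)
      (fun m => (hrA _).trans (key m i)) O hO hZO

end Pool.Agent.Lib.MP_5684f0_lc
end

-- part Pool.Agent.Lib.MP_5684f0_lc.Proc
section

/-!
Mind change processes indexed by ordinals, and the sets that defeat them.
-/

namespace Pool.Agent.Lib.MP_5684f0_lc

open Filter Topology Set PiNat Ordinal

/-- A state: an ordinal bound on the mind changes still allowed, and the current guess. -/
abbrev St := Ordinal.{0} × Bool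

/-- The state with the opposite guess. -/
def flip (s : St) : St := (s.1, !s.2)

@[simp] theorem flip_flip (s : St) : flip (flip s) = s := by simp [flip]

@[simp] theorem flip_fst (s : St) : (flip s).1 = s.1 := rfl

@[simp] theorem flip_snd (s : St) : (flip s).2 = !s.2 := rfl

/-- A sequence of states that only moves down. -/
def Down (u : ℕ → St) : Prop := ∀ t, u (t + 1) = u t ∨ (u (t + 1)).1 < (u t).1

theorem Down.stab {u : ℕ → St} (h : Down u) : ∃ t0, ∀ t ≥ t0, u t = u t0 := by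
  obtain ⟨_, ⟨t0, rfl⟩, hm⟩ := wellFounded_lt.has_min (range fun t => (u t).1) (range_nonempty _)
  refine ⟨t0, fun t ht => ?_⟩
  induction t, ht using Nat.le_induction with
  | base => rfl
  | succ t _ ih =>
    rcases h t with h | h
    · rw [h, ih]
    · rw [ih] at h
      exact absurd h (hm _ (mem_range_self _))

/-- The bit `g` is guessed on `Y` by a process that starts in `S`. -/
def Proc (Y : Set Cs) (g : Cs → Bool) (S : Set St) : Prop :=
  ∃ st : Cs → ℕ → St, (∀ t, LC Y (fun y => st y t)) ∧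
    ∀ y ∈ Y, st y 0 ∈ S ∧ Down (st y) ∧ ∀ᶠ t in atTop, (st y t).2 = g y

theorem LC.mono {α : Type*} {Y Y' : Set Cs} {φ : Cs → α} (h : LC Y φ) (hY : Y' ⊆ Y) : LC Y' φ :=
  fun y hy => (h y (hY hy)).filter_mono (nhdsWithin_mono _ hY)

theorem Proc.mono {Y Y' : Set Cs} {g : Cs → Bool} {S S' : Set St} (h : Proc Y g S) (hY : Y' ⊆ Y)
    (hS : S ⊆ S') : Proc Y' g S' := by
  obtain ⟨st, h1, h2⟩ := h
  exact ⟨st, fun t => (h1 t).mono hY, fun y hy =>
    ⟨hS (h2 y (hY hy)).1, (h2 y (hY hy)).2⟩⟩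

theorem Proc.not {Y : Set Cs} {g : Cs → Bool} {S : Set St} (h : Proc Y g S) :
    Proc Y (fun y => !g y) (flip ⁻¹' S) := by
  obtain ⟨st, h1, h2⟩ := h
  refine ⟨fun y t => flip (st y t), fun t y hy => (h1 t y hy).mono fun y' h => by
    simp only at h ⊢; rw [h], fun y hy => ⟨by simpa using (h2 y hy).1, fun t => ?_, ?_⟩⟩
  · rcases (h2 y hy).2.1 t with h | h
    · left; simp only [h]
    · right; exact h
  · exact (h2 y hy).2.2.mono fun t h => by simp [h]

theorem Proc.up {Y : Set Cs} {g : Cs → Bool} {s s' : St} (h : Proc Y g {s}) (hs : s.1 < s'.1) :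
    Proc Y g {s'} := by
  obtain ⟨st, h1, h2⟩ := h
  refine ⟨fun y t => Nat.casesOn (motive := fun _ => St) t s' (st y), fun t => ?_,
    fun y hy => ⟨rfl, fun t => ?_, ?_⟩⟩
  · cases t with
    | zero => exact fun y _ => Eventually.of_forall fun _ => rfl
    | succ t => exact h1 t
  · cases t with
    | zero =>
      right
      have : st y 0 = s := (h2 y hy).1
      simpa [this] using hs
    | succ t => exact (h2 y hy).2.1 t
  · obtain ⟨t0, ht⟩ := eventually_atTop.1 (h2 y hy).2.2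
    refine eventually_atTop.2 ⟨t0 + 1, fun t h => ?_⟩
    obtain ⟨t, rfl⟩ : ∃ t', t = t' + 1 := ⟨t - 1, by omega⟩
    exact ht t (by omega)

open Classical in
theorem LC.find {Y : Set Cs} {P : Cs → ℕ → Prop} (h : ∀ n, LC Y (fun y => P y n))
    (hex : ∀ y ∈ Y, ∃ n, P y n) :
    LC Y (fun y => if h : ∃ n, P y n then Nat.find h else 0) := by
  intro y hy
  have h1 : ∀ᶠ y' in 𝓝[Y] y, ∀ n ∈ Iic (Nat.find (hex y hy)), P y' n = P y n :=
    (eventually_all_finite (finite_Iic _)).2 fun n _ => h n y hy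
  refine h1.mono fun y' hy' => ?_
  have h2 : P y' (Nat.find (hex y hy)) := by
    rw [hy' _ (mem_Iic.2 le_rfl)]; exact Nat.find_spec (hex y hy)
  simp only [dif_pos (hex y hy), dif_pos (⟨_, h2⟩ : ∃ n, P y' n)]
  rw [Nat.find_eq_iff]
  refine ⟨h2, fun n hn => ?_⟩
  rw [hy' n (mem_Iic.2 hn.le)]
  exact Nat.find_min _ hn

theorem LC.exists_choice {Y : Set Cs} {P : Cs → ℕ → Prop} (h : ∀ n, LC Y (fun y => P y n))
    (hex : ∀ y ∈ Y, ∃ n, P y n) : ∃ T : Cs → ℕ, LC Y T ∧ ∀ y ∈ Y, P y (T y) := by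
  classical
  refine ⟨_, LC.find h hex, fun y hy => ?_⟩
  simp only [dif_pos (hex y hy)]
  convert Nat.find_spec (hex y hy)

theorem LC.comp {α β : Type*} {Y : Set Cs} {T : Cs → β} {φ : Cs → β → α} (hT : LC Y T)
    (h : ∀ b, LC Y (fun y => φ y b)) : LC Y (fun y => φ y (T y)) := by
  intro y hy
  filter_upwards [hT y hy, h (T y) y hy] with y' h1 h2
  rw [h1, h2]

theorem Down.stay {u : ℕ → St} (h : Down u) (hn : ∀ t, ¬ (u t).1 < (u 0).1) (t : ℕ) :
    u t = u 0 := by
  induction t with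
  | zero => rfl
  | succ t ih =>
    rcases h t with h | h
    · rw [h, ih]
    · rw [ih] at h
      exact absurd h (hn _)

/-- Two processes with opposite first guesses give one that starts lower. -/
theorem Proc.merge {Y : Set Cs} {g : Cs → Bool} {β : Ordinal.{0}} (h0 : Proc Y g {(β, false)})
    (h1 : Proc Y g {(β, true)}) : Proc Y g {s | s.1 < β} := by
  classical
  obtain ⟨u, hu, hu'⟩ := h0
  obtain ⟨v, hv, hv'⟩ := h1
  have hex : ∀ y ∈ Y, ∃ t, (u y t).1 < β ∨ (v y t).1 < β := by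
    intro y hy
    by_contra hc
    push Not at hc
    have e0 : u y 0 = (β, false) := (hu' y hy).1
    have e1 : v y 0 = (β, true) := (hv' y hy).1
    obtain ⟨t, ha, hb⟩ := ((hu' y hy).2.2.and (hv' y hy).2.2).exists
    rw [(hu' y hy).2.1.stay (fun t => by rw [e0]; exact not_lt.2 (hc t).1), e0] at ha
    rw [(hv' y hy).2.1.stay (fun t => by rw [e1]; exact not_lt.2 (hc t).2), e1, ← ha] at hb
    simp at hb
  obtain ⟨T, hT, hTs⟩ := LC.exists_choice (P := fun y t => (u y t).1 < β ∨ (v y t).1 < β)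
    (fun n y hy => by
      filter_upwards [hu n y hy, hv n y hy] with y' a b
      rw [a, b]) hex
  refine ⟨fun y t => if (u y (T y)).1 < β then u y (T y + t) else v y (T y + t), fun t => ?_,
    fun y hy => ?_⟩
  · refine hT.comp (φ := fun y b => if (u y b).1 < β then u y (b + t) else v y (b + t))
      fun b y hy => ?_
    filter_upwards [hu b y hy, hu (b + t) y hy, hv (b + t) y hy] with y' a b c
    rw [a, b, c]
  · have hs : (u y (T y)).1 < β ∨ (v y (T y)).1 < β := hTs y hy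
    have hadd : Tendsto (fun t => T y + t) atTop atTop :=
      tendsto_atTop_mono (fun t => Nat.le_add_left t (T y)) tendsto_id
    by_cases hc : (u y (T y)).1 < β
    · simp only [hc, if_true]
      exact ⟨hc, fun t => (hu' y hy).2.1 (T y + t), hadd.eventually (hu' y hy).2.2⟩
    · simp only [hc, if_false]
      exact ⟨hs.resolve_left hc, fun t => (hv' y hy).2.1 (T y + t),
        hadd.eventually (hv' y hy).2.2⟩

/-- The points of `A` where `B` takes the value `k` and all lower states are approached. -/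
def SId.E0 (I : SId) (A : Set Cs) (B : Cs → Bool) (γ : Ordinal.{0}) : Bool → Set Cs :=
  fun k => {x | x ∈ A ∧ B x = k ∧ ∀ δ, δ < γ → ∀ k', x ∈ I.clp (I.E0 A B δ k')}
termination_by γ

/-- The same, as a function of the state. -/
def SId.E (I : SId) (A : Set Cs) (B : Cs → Bool) (s : St) : Set Cs := I.E0 A B s.1 s.2

theorem SId.mem_E {I : SId} {A : Set Cs} {B : Cs → Bool} {s : St} {x : Cs} :
    x ∈ I.E A B s ↔ x ∈ A ∧ B x = s.2 ∧ ∀ s' : St, s'.1 < s.1 → x ∈ I.clp (I.E A B s') := by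
  rw [SId.E, SId.E0]
  simp only [mem_ofPred_eq, Prod.forall, SId.E]
  exact and_congr_right fun _ => and_congr_right fun _ =>
    ⟨fun h a b c => h a c b, fun h a c b => h a b c⟩

theorem SId.E_move {I : SId} {A : Set Cs} {B : Cs → Bool} {s s' : St} {x : Cs} {n : ℕ}
    (h : ¬ I.N (I.E A B s ∩ cylinder x n)) (hs : s' = s ∨ s'.1 < s.1) :
    ¬ I.N (I.E A B s' ∩ cylinder x n) := by
  rcases hs with rfl | hs
  · exact h
  · obtain ⟨z, hz, hzx⟩ := I.nonempty h
    rw [← mem_cylinder_iff_eq.1 hzx]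
    exact (SId.mem_E.1 hz).2.2 s' hs n

open Classical in
theorem SId.proc_of_E {I : SId} {A Y : Set Cs} {B : Cs → Bool} {s : St} (hY : Y ⊆ A)
    (h0 : Y ∩ I.E A B (flip s) = ∅)
    (h1 : ∀ s' : St, s'.1 < s.1 → Y ∩ I.E A B s' ⊆ I.clp (I.E A B s')) : Proc Y B {s} := by
  let nx : Set Cs → St → St := fun C u =>
    if h : ∃ u' : St, u'.1 < u.1 ∧ C ∩ (Y ∩ I.E A B u') = ∅ then flip h.choose else u
  let st : Cs → ℕ → St := fun y t => Nat.rec s (fun t u => nx (cylinder y t) u) t
  have hst : ∀ y t, st y (t + 1) = nx (cylinder y t) (st y t) := fun y t => rfl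
  have hdown : ∀ y, Down (st y) := by
    intro y t
    rw [hst]
    simp only [nx]
    split_ifs with h
    · exact Or.inr h.choose_spec.1
    · exact Or.inl rfl
  refine ⟨st, fun t y _ => ?_, fun y hy => ⟨rfl, hdown y, ?_⟩⟩
  · refine Eventually.filter_mono nhdsWithin_le_nhds ?_
    filter_upwards [cyl_mem_nhds y t] with y' hy'
    induction t with
    | zero => rfl
    | succ t ih =>
      have h' : y' ∈ cylinder y t := cylinder_anti _ (Nat.le_succ t) hy'
      rw [hst, hst, ih h', mem_cylinder_iff_eq.1 h']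
  · have inv : ∀ t, (st y t).1 ≤ s.1 ∧ y ∉ I.E A B (flip (st y t)) := by
      intro t
      induction t with
      | zero => exact ⟨le_rfl, fun h => (h0.subset ⟨hy, h⟩)⟩
      | succ t ih =>
        rw [hst]
        simp only [nx]
        split_ifs with h
        · refine ⟨h.choose_spec.1.le.trans ih.1, fun h' => ?_⟩
          rw [flip_flip] at h'
          exact h.choose_spec.2.subset ⟨self_mem_cylinder y t, hy, h'⟩
        · exact ih
    obtain ⟨t0, ht0⟩ := (hdown y).stab
    refine eventually_atTop.2 ⟨t0, fun t ht => ?_⟩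
    rw [ht0 t ht]
    by_contra hne
    refine (inv t0).2 (SId.mem_E.2 ⟨hY hy, ?_, fun s' hs' n => ?_⟩)
    · revert hne
      rw [flip_snd]
      cases B y <;> cases (st y t0).2 <;> simp
    · have hno : ¬ ∃ u' : St, u'.1 < (st y (max t0 n)).1 ∧
          cylinder y (max t0 n) ∩ (Y ∩ I.E A B u') = ∅ := by
        intro h
        have e := hst y (max t0 n)
        simp only [nx, dif_pos h] at e
        have := h.choose_spec.1
        rw [← flip_fst h.choose, ← e, ht0 (max t0 n + 1) (by omega),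
          ht0 (max t0 n) (by omega)] at this
        exact lt_irrefl _ this
      rw [ht0 _ (le_max_left _ _)] at hno
      obtain ⟨z, hz, hz'⟩ := nonempty_iff_ne_empty.2 fun h => hno ⟨s', hs', h⟩
      have := h1 s' (lt_of_lt_of_le hs' (inv t0).1) hz' n
      rwa [mem_cylinder_iff_eq.1 (cylinder_anti _ (le_max_right t0 n) hz)] at this

/-- `A` is covered by countably many sets on which each bit of `f` is guessed from a state in
`S`. -/
def Cov (f : Cs → Cs) (S : Set St) (A : Set Cs) : Prop :=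
  ∃ Y : ℕ → Set Cs, A ⊆ ⋃ l, Y l ∧
    ∀ l a, (Y l).Nonempty → ∃ s ∈ S, Proc (Y l) (fun y => f y a) {s}

/-- The ideal of covered sets. -/
def covId (f : Cs → Cs) (S : Set St) : SId where
  N := Cov f S
  empty := ⟨fun _ => ∅, empty_subset _, fun _ _ h => absurd h not_nonempty_empty⟩
  mono := fun h ⟨Y, h1, h2⟩ => ⟨Y, h.trans h1, h2⟩
  iUnion := fun A h => by
    choose Y h1 h2 using h
    refine ⟨fun l => Y l.unpair.1 l.unpair.2, iUnion_subset fun n x hx => ?_,
      fun l => h2 _ _⟩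
    obtain ⟨l, hl⟩ := mem_iUnion.1 (h1 n hx)
    exact mem_iUnion.2 ⟨Nat.pair n l, by simpa using hl⟩

theorem countable_lower {γ : Ordinal.{0}} (h : γ < ω₁) : {s : St | s.1 < γ}.Countable := by
  have h1 : (Iio γ).Countable := by
    rw [← Cardinal.le_aleph0_iff_set_countable, Cardinal.mk_Iio_ordinal, Cardinal.lift_le_aleph0,
      ← Cardinal.lt_aleph_one_iff]
    exact Cardinal.lt_omega_iff_card_lt.1 h
  exact (h1.prod (countable_univ (α := Bool))).mono fun s hs => mem_prod.2 ⟨hs, mem_univ _⟩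

theorem exists_bit {f : Cs → Cs} {S : Set St} (hS : ∀ s ∈ S, s.1 < ω₁) {A : Set Cs}
    (hA : ¬ Cov f S A) :
    ∃ a, ∀ s ∈ S, ¬ Cov f S ((covId f S).E A (fun y => f y a) (flip s)) := by
  by_contra hc
  push Not at hc
  choose s hs hN using hc
  set I := covId f S with hI
  let R : ℕ → Set Cs := fun a => I.E A (fun y => f y a) (flip (s a)) ∪
    ⋃ u : {u : St | u.1 < (s a).1}, I.E A (fun y => f y a) u \ I.clp (I.E A (fun y => f y a) u)
  have hR : I.N (⋃ a, R a) := I.iUnion _ fun a => by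
    have := (countable_lower (hS _ (hs a))).to_subtype
    exact I.union (hN a) (I.iUnion' _ fun u => I.diff_clp _)
  have hY : I.N (A \ ⋃ a, R a) := by
    refine ⟨fun _ => A \ ⋃ a, R a, subset_iUnion (fun _ : ℕ => A \ ⋃ a, R a) 0,
      fun _ a _ => ⟨s a, hs a, SId.proc_of_E (I := I) sdiff_subset ?_ ?_⟩⟩
    · exact eq_empty_of_forall_notMem fun x hx => hx.1.2 (mem_iUnion.2 ⟨a, Or.inl hx.2⟩)
    · intro u hu x hx
      by_contra hn
      exact hx.1.2 (mem_iUnion.2 ⟨a, Or.inr (mem_iUnion.2 ⟨⟨u, hu⟩, hx.2, hn⟩)⟩)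
  exact hA (I.mono (by rw [sdiff_union_self]; exact subset_union_left) (I.union hY hR))

/-- The trivial ideal. -/
def triv : SId where
  N := fun A => A = ∅
  empty := rfl
  mono := fun h h' => subset_eq_empty h h'
  iUnion := fun _ h => iUnion_eq_empty.2 h

theorem triv_clp (A : Set Cs) : triv.clp A = closure A := by
  ext x
  constructor
  · intro h
    refine mem_closure_iff_nhds.2 fun U hU => ?_
    obtain ⟨s, hs⟩ := exists_cyl_subset hU
    obtain ⟨z, h1, h2⟩ := nonempty_iff_ne_empty.2 (h s)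
    exact ⟨z, hs h2, h1⟩
  · intro h s
    obtain ⟨z, h1, h2⟩ := mem_closure_iff_nhds.1 h _ (cyl_mem_nhds x s)
    exact nonempty_iff_ne_empty.1 ⟨z, h2, h1⟩

theorem SId.E_anti (I : SId) (A : Set Cs) (B : Cs → Bool) {γ δ : Ordinal.{0}} (h : γ ≤ δ)
    (k : Bool) : I.E A B (δ, k) ⊆ I.E A B (γ, k) := fun _ hx =>
  SId.mem_E.2 ⟨(SId.mem_E.1 hx).1, (SId.mem_E.1 hx).2.1,
    fun s' hs' => (SId.mem_E.1 hx).2.2 s' (lt_of_lt_of_le hs' h)⟩

theorem succ_lt_omega_one {γ : Ordinal.{0}} (h : γ < ω₁) : γ + 1 < ω₁ :=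
  (Cardinal.isSuccLimit_omega 1).succ_lt h

/-- The Hausdorff analysis of a set that is both a countable intersection of open sets and a
countable union of closed sets. -/
theorem exists_E_empty {B : Cs → Bool} (hB : ∀ b, IsGδ {x | B x = b}) :
    ∃ s : St, s.1 < ω₁ ∧ triv.E univ B s = ∅ := by
  classical
  by_contra hc
  push Not at hc
  let φ : ℕ × ℕ × Bool → Ordinal.{0} := fun p =>
    if h : ∃ γ < ω₁, triv.E univ B (γ, p.2.2) ∩
      cylinder (TopologicalSpace.denseSeq Cs p.1) p.2.1 = ∅ then h.choose else 0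
  have hφ : ∀ p, φ p < ω₁ := by
    intro p
    simp only [φ]
    split_ifs with h
    · exact h.choose_spec.1
    · exact omega_pos 1
  set γ := ⨆ p, φ p with hγ
  have hγ1 : γ < ω₁ := iSup_lt_omega_one hφ
  let F := closure (triv.E univ B (γ, false)) ∩ closure (triv.E univ B (γ, true))
  have hF : ∀ k, F ⊆ closure (triv.E univ B (γ, k)) := fun k => by
    cases k
    · exact inter_subset_left
    · exact inter_subset_right
  have hE : ∀ k, triv.E univ B (γ + 1, k) ⊆ F ∩ {x | B x = k} := by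
    intro k x hx
    have h := (SId.mem_E.1 hx).2
    refine ⟨⟨?_, ?_⟩, h.1⟩ <;> rw [← triv_clp] <;> exact h.2 _ (Order.lt_add_one_iff.2 le_rfl)
  have hst : ∀ k, closure (triv.E univ B (γ, k)) ⊆ closure (triv.E univ B (γ + 1, k)) := by
    intro k x hx
    rw [← triv_clp] at hx ⊢
    intro s hN
    obtain ⟨n, hn⟩ := cyl_eq_dense x s
    have h : ∃ γ < ω₁, triv.E univ B (γ, k) ∩
        cylinder (TopologicalSpace.denseSeq Cs n) s = ∅ :=
      ⟨γ + 1, succ_lt_omega_one hγ1, by rw [hn]; exact hN⟩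
    have h2 : h.choose ≤ γ := by
      have := Ordinal.le_iSup φ (n, s, k)
      simpa only [φ, dif_pos h] using this
    refine hx s (subset_eq_empty (inter_subset_inter_left _ (triv.E_anti _ _ h2 k)) ?_)
    rw [← hn]
    exact h.choose_spec.2
  have hFc : IsClosed F := isClosed_closure.inter isClosed_closure
  have : CompactSpace F := isCompact_iff_compactSpace.1 hFc.isCompact
  have hd : ∀ k, Dense ((↑) ⁻¹' {x | B x = k} : Set F) := by
    intro k
    rw [Subtype.dense_iff, Subtype.image_preimage_coe]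
    exact (hF k).trans ((hst k).trans (closure_mono (hE k)))
  obtain ⟨x, hx⟩ := hc (γ + 1, false) (succ_lt_omega_one hγ1)
  have : Nonempty F := ⟨⟨x, (hE _ hx).1⟩⟩
  obtain ⟨z, h0, h1⟩ := (Dense.inter_of_Gδ ((hB false).preimage continuous_subtype_val)
    ((hB true).preimage continuous_subtype_val) (hd false) (hd true)).nonempty
  simp only [mem_preimage, mem_ofPred_eq] at h0 h1
  rw [h0] at h1
  exact absurd h1 (by simp)

theorem exists_cov {f : Cs → Cs} (hf : BaireOne f) : ∃ s : St, s.1 < ω₁ ∧ Cov f {s} univ := by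
  choose s hs hE using fun a => exists_E_empty (hf a)
  refine ⟨(⨆ a, (s a).1 + 1, false), iSup_lt_omega_one fun a => succ_lt_omega_one (hs a),
    fun _ => univ, subset_iUnion (fun _ : ℕ => (univ : Set Cs)) 0, fun _ a _ => ⟨_, rfl, ?_⟩⟩
  have h : Proc univ (fun y => f y a) {flip (s a)} :=
    SId.proc_of_E (I := triv) Subset.rfl (by simp [hE a]) fun u _ => by
      rw [triv_clp]; exact inter_subset_right.trans subset_closure
  exact h.up (lt_of_lt_of_le (Order.lt_add_one_iff.2 le_rfl)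
    (Ordinal.le_iSup (fun a => (s a).1 + 1) a))

end Pool.Agent.Lib.MP_5684f0_lc
end

-- part Pool.Agent.Lib.MP_5684f0_lc.Par
section

/-!
Infinitely many processes are simulated at once by an order preserving function.
-/

namespace Pool.Agent.Lib.MP_5684f0_lc

open Filter Topology Set PiNat Ordinal

theorem box_subset_box {x x' : W} {s s' : ℕ} (h : x' ∈ box x s) (hs : s ≤ s') :
    box x' s' ⊆ box x s := fun v hv m hm => by
  rw [← mem_cylinder_iff_eq.1 (h m hm)]
  exact cylinder_anti _ hs (hv m (by omega))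

theorem cyl_eq_of_mem_box {x x' : W} {s m : ℕ} (h : x' ∈ box x s) (hm : m < s) :
    cylinder (x' m) s = cylinder (x m) s := mem_cylinder_iff_eq.1 (h m hm)

/-- The centre of the box with number `n`. -/
noncomputable def bx (n : ℕ) : W := TopologicalSpace.denseSeq W n.unpair.1

/-- The level of the box with number `n`. -/
def bs (n : ℕ) : ℕ := n.unpair.2

theorem exists_bx (x : W) (s : ℕ) : ∃ n, bs n = s ∧ bx n ∈ box x s := by
  obtain ⟨n, hn⟩ := (TopologicalSpace.denseRange_denseSeq W).exists_mem_open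
    (isOpen_box x s) ⟨x, self_mem_box x s⟩
  exact ⟨Nat.pair n s, by simp [bs], by simpa [bx] using hn⟩

theorem IsGδ.exists_anti {X : Type*} [TopologicalSpace X] {A : Set X} (h : IsGδ A) :
    ∃ V : ℕ → Set X, (∀ n, IsOpen (V n)) ∧ (∀ n, A ⊆ V n) ∧
      ∀ x, (∀ᶠ n in atTop, x ∈ V n) → x ∈ A := by
  obtain ⟨U, hU, rfl⟩ := h.eq_iInter_nat
  refine ⟨fun n => ⋂ k ∈ Iic n, U k, fun n => (finite_Iic n).isOpen_biInter fun k _ => hU k,
    fun n => subset_iInter₂ fun k _ => iInter_subset _ k, fun x hx => mem_iInter.2 fun k => ?_⟩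
  obtain ⟨n, h1, h2⟩ := (hx.and (eventually_ge_atTop k)).exists
  exact mem_iInter₂.1 h1 k h2

/-- One step of the construction. -/
theorem exists_step {I : ℕ → SId} {E' V : ℕ → Set Cs} {x : W} {s t i : ℕ} {O : Set W}
    (hE' : Cond I E') (hmove : ∀ m < s, ¬ (I m).N (E' m ∩ cylinder (x m) s))
    (hV : ∀ m, IsOpen (V m)) (hEV : ∀ m, E' m ⊆ V m)
    (hO : ∀ r, Cond I r → (∀ m, r m ⊆ E' m) →
      ∃ w s, box w s ⊆ O ∧ ∀ m < s, ¬ (I (m + i)).N (r (m + i) ∩ cylinder (w m) s)) :
    ∃ n, t < bs n ∧ box (bx n) (bs n) ⊆ box x s ∧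
      (∀ v ∈ box (bx n) (bs n), (fun m => v (m + i)) ∈ O) ∧
      (∀ m ≤ t, cylinder (bx n m) (bs n) ⊆ V m) ∧
      ∀ m < bs n, ¬ (I m).N (E' m ∩ cylinder (bx n m) (bs n)) := by
  classical
  let r : ℕ → Set Cs := fun m => if m < s then E' m ∩ cylinder (x m) s else E' m
  have hr : Cond I r := fun m => by
    simp only [r]
    split_ifs with h
    · exact hmove m h
    · exact hE' m
  have hrE : ∀ m, r m ⊆ E' m := fun m => by
    simp only [r]
    split_ifs
    · exact inter_subset_left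
    · exact Subset.rfl
  obtain ⟨w, s1, hb, hw⟩ := hO r hr hrE
  let r' : ℕ → Set Cs := fun m =>
    if i ≤ m ∧ m - i < s1 then r m ∩ cylinder (w (m - i)) s1 else r m
  have hr' : Cond I r' := fun m => by
    simp only [r']
    split_ifs with h
    · have := hw _ h.2
      rwa [Nat.sub_add_cancel h.1] at this
    · exact hr m
  have hrr : ∀ m, r' m ⊆ r m := fun m => by
    simp only [r']
    split_ifs
    · exact inter_subset_left
    · exact Subset.rfl
  choose z hz hz' using fun m => (I m).exists_clp (hr' m)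
  choose l hl using fun m => exists_cyl_subset ((hV m).mem_nhds (hEV m (hrE m (hrr m (hz m)))))
  obtain ⟨L, hL⟩ := ((finite_Iic t).image l).bddAbove
  obtain ⟨n, hn, hnz⟩ := exists_bx z (s + t + i + s1 + L + 1)
  have hsub : box (bx n) (bs n) ⊆ box z (s + t + i + s1 + L + 1) := by
    rw [hn]; exact box_subset_box hnz le_rfl
  refine ⟨n, by omega, hsub.trans (box_subset_box (fun m hm => ?_) (by omega)), fun v hv => hb ?_,
    fun m hm => ?_, fun m hm => ?_⟩
  · have := hrr m (hz m)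
    simp only [r, hm, if_true] at this
    exact this.2
  · intro m hm
    have h1 := hz (m + i)
    simp only [r', Nat.le_add_left, Nat.add_sub_cancel, hm, and_self, if_true] at h1
    rw [← mem_cylinder_iff_eq.1 h1.2]
    exact cylinder_anti _ (by omega) (hsub hv (m + i) (by omega))
  · have h1 : l m ≤ L := hL (mem_image_of_mem _ hm)
    rw [hn, cyl_eq_of_mem_box hnz (by omega)]
    exact (cylinder_anti _ (by omega)).trans (hl m)
  · rw [hn] at hm ⊢
    rw [cyl_eq_of_mem_box hnz hm]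
    exact fun hN => hz' m _ ((I m).mono
      (inter_subset_inter_left _ ((hrr m).trans (hrE m))) hN)

/-- The main construction. -/
theorem exists_sim {I : ℕ → SId} {A : ℕ → Set Cs} {B : ℕ → Cs → Bool} {Z : ℕ → Set W}
    (hB : ∀ m b, IsGδ {x | B m x = b}) (hZ : ∀ i, IsGδ (Z i))
    (hA : ∀ i r, Cond I r → (∀ m, r m ⊆ A m) → ∀ O, IsOpen O → Z i ⊆ O →
      ∃ w s, box w s ⊆ O ∧ ∀ m < s, ¬ (I (m + i)).N (r (m + i) ∩ cylinder (w m) s))
    {S : ℕ → Set St} (hS : ∀ m, ∀ s ∈ S m, ¬ (I m).N ((I m).E (A m) (B m) s))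
    {Y : Set Cs} {g : ℕ → Cs → Bool} (hg : ∀ m, Proc Y (g m) (S m)) :
    ∃ θ : Cs → W, (∀ m k, LC Y (fun y => θ y m k)) ∧
      ∀ y ∈ Y, (∀ m, B m (θ y m) = g m y) ∧ ∀ i, (fun m => θ y (m + i)) ∈ Z i := by
  classical
  choose st hlc hst using hg
  choose V hV hBV hVB using fun m b => IsGδ.exists_anti (hB m b)
  have hZ' : ∀ i, ∃ O : ℕ → Set W,
      (∀ n, IsOpen (O n)) ∧ (∀ n, Z i ⊆ O n) ∧ ∀ x, (∀ n, x ∈ O n) → x ∈ Z i := by
    intro i
    obtain ⟨O, h1, h2⟩ := (hZ i).eq_iInter_nat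
    rw [h2]
    exact ⟨O, h1, fun n => iInter_subset O n, fun x hx => mem_iInter.2 hx⟩
  choose O hO hZO hOZ using hZ'
  let E : Cs → ℕ → ℕ → Set Cs := fun y t m => (I m).E (A m) (B m) (st m y t)
  let Good : ℕ → ℕ → Cs → ℕ → Prop := fun t b y n =>
    t < bs n ∧ box (bx n) (bs n) ⊆ box (bx b) (bs b) ∧
      (∀ v ∈ box (bx n) (bs n), (fun m => v (m + t.unpair.1)) ∈ O t.unpair.1 t.unpair.2) ∧
      (∀ m ≤ t, cylinder (bx n m) (bs n) ⊆ V m (st m y (t + 1)).2 t) ∧
      ∀ m < bs n, ¬ (I m).N (E y (t + 1) m ∩ cylinder (bx n m) (bs n))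
  have hpos : ∀ y ∈ Y, ∀ t, Cond I (E y t) := by
    intro y hy t m
    induction t with
    | zero => exact hS m _ (hst m y hy).1
    | succ t ih =>
      have := SId.E_move (x := y) (n := 0) (by simpa using ih) ((hst m y hy).2.1 t)
      simpa using this
  have hex : ∀ y ∈ Y, ∀ t b, (∀ m < bs b, ¬ (I m).N (E y t m ∩ cylinder (bx b m) (bs b))) →
      ∃ n, Good t b y n := by
    intro y hy t b hb
    refine exists_step (hpos y hy (t + 1))
      (fun m hm => SId.E_move (hb m hm) ((hst m y hy).2.1 t)) (fun m => hV _ _ _)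
      (fun m x hx => hBV _ _ _ (SId.mem_E.1 hx).2.1) fun r hr hrE =>
        hA _ r hr (fun m x hx => (SId.mem_E.1 (hrE m hx)).1) _ (hO _ _) (hZO _ _)
  have hGood : ∀ t b n, LC Y (fun y => Good t b y n) := by
    intro t b n y hy
    have h1 : ∀ᶠ y' in 𝓝[Y] y, ∀ m ∈ Iic (t + bs n), st m y' (t + 1) = st m y (t + 1) :=
      (eventually_all_finite (finite_Iic _)).2 fun m _ => hlc m (t + 1) y hy
    refine h1.mono fun y' hy' => propext ?_
    refine and_congr_right fun _ => and_congr_right fun _ => and_congr_right fun _ =>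
      and_congr (forall₂_congr fun m hm => ?_) (forall₂_congr fun m hm => ?_)
    · rw [hy' m (mem_Iic.2 (by omega))]
    · simp only [E]
      rw [hy' m (mem_Iic.2 (by omega))]
  have step : ∀ t (b : Cs → ℕ), LC Y b → ∃ b' : Cs → ℕ,
      (∀ y ∈ Y, ∀ m < bs (b y), ¬ (I m).N (E y t m ∩ cylinder (bx (b y) m) (bs (b y)))) →
        LC Y b' ∧ ∀ y ∈ Y, Good t (b y) y (b' y) := by
    intro t b hb
    by_cases h : ∀ y ∈ Y, ∀ m < bs (b y), ¬ (I m).N (E y t m ∩ cylinder (bx (b y) m) (bs (b y)))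
    · obtain ⟨b', h1, h2⟩ := LC.exists_choice (P := fun y n => Good t (b y) y n)
        (fun n => hb.comp (φ := fun y b => Good t b y n) fun b => hGood t b n)
        fun y hy => hex y hy t _ (h y hy)
      exact ⟨b', fun _ => ⟨h1, h2⟩⟩
    · exact ⟨b, fun h' => absurd h' h⟩
  choose! nx hnx using step
  let b : ℕ → Cs → ℕ := fun t => Nat.rec (fun _ => 0) nx t
  have hb : ∀ t, b (t + 1) = nx t (b t) := fun t => rfl
  have inv : ∀ t, LC Y (b t) ∧ ∀ y ∈ Y, ∀ m < bs (b t y),
      ¬ (I m).N (E y t m ∩ cylinder (bx (b t y) m) (bs (b t y))) := by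
    intro t
    induction t with
    | zero => exact ⟨fun y _ => Eventually.of_forall fun _ => rfl, fun y _ m hm => by
        simp [b, bs] at hm⟩
    | succ t ih =>
      have := hnx t (b t) ih.1 ih.2
      exact ⟨this.1, fun y hy => (this.2 y hy).2.2.2.2⟩
  have good : ∀ t, ∀ y ∈ Y, Good t (b t y) y (b (t + 1) y) :=
    fun t => (hnx t (b t) (inv t).1 (inv t).2).2
  have hlim : ∀ y ∈ Y, ∃ w : W, ∀ t, w ∈ box (bx (b t y)) (bs (b t y)) := by
    intro y hy
    obtain ⟨w, hw⟩ := IsCompact.nonempty_iInter_of_sequence_nonempty_isCompact_isClosed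
      (fun t => box (bx (b t y)) (bs (b t y))) (fun t => (good t y hy).2.1)
      (fun t => ⟨_, self_mem_box _ _⟩) (isClosed_box _ _).isCompact (fun t => isClosed_box _ _)
    exact ⟨w, mem_iInter.1 hw⟩
  choose! θ hθ using hlim
  refine ⟨θ, fun m k y hy => ?_, fun y hy => ⟨fun m => ?_, fun i => hOZ i _ fun l => ?_⟩⟩
  · have key : ∀ y ∈ Y, θ y m k = bx (b (m + k + 1) y) m k := fun y hy =>
      hθ y hy (m + k + 1) m (by have := (good (m + k) y hy).1; omega) k
        (by have := (good (m + k) y hy).1; omega)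
    filter_upwards [(inv (m + k + 1)).1 y hy, self_mem_nhdsWithin] with y' h1 h2
    rw [key y hy, key y' h2, h1]
  · refine hVB m (g m y) _ ?_
    filter_upwards [(tendsto_add_atTop_nat 1).eventually (hst m y hy).2.2,
      eventually_ge_atTop m] with t h1 h2
    rw [← h1]
    exact (good t y hy).2.2.2.1 m h2
      (hθ y hy (t + 1) m (by have := (good t y hy).1; omega))
  · have := (good (Nat.pair i l) y hy).2.2.1 _ (hθ y hy (Nat.pair i l + 1))
    simpa only [Nat.unpair_pair] using this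

/-- The join of a sequence of reals. -/
def code (w : W) : Cs := fun n => w n.unpair.1 n.unpair.2

theorem continuous_code : Continuous code :=
  continuous_pi fun n => (continuous_apply n.unpair.2).comp (continuous_apply n.unpair.1)

theorem leT_code_zero (w : W) : leT (w 0) (code w) := by
  simpa [code] using leT_reindex (code w) (computable_pair_left 0)

theorem leT_code_shift (w : W) : leT (code fun m => w (m + 1)) (code w) := by
  have := leT_reindex (code w) (π := fun n => Nat.pair (n.unpair.1 + 1) n.unpair.2)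
    (Primrec₂.natPair.comp (Primrec.succ.comp (Primrec.fst.comp Primrec.unpair))
      (Primrec.snd.comp Primrec.unpair)).to_comp
  simp only [code, Nat.unpair_pair] at this
  exact this

theorem isGδ_eq {X : Type*} [TopologicalSpace X] {u v : X → Bool} (hu : ∀ b, IsGδ {x | u x = b})
    (hv : ∀ b, IsGδ {x | v x = b}) : IsGδ {x | u x = v x} := by
  have : {x | u x = v x} = ({x | u x = false} ∩ {x | v x = false}) ∪
      ({x | u x = true} ∩ {x | v x = true}) := by
    ext x
    simp only [mem_ofPred_eq, mem_union, mem_inter_iff]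
    cases u x <;> cases v x <;> simp
  rw [this]
  exact ((hu _).inter (hv _)).union ((hu _).inter (hv _))

/-- Order preserving everywhere. -/
def OP (f : Cs → Cs) : Prop := ∀ x y, leT x y → leM (f x) (f y)

/-- Simulation of infinitely many processes at positions fixed in advance. -/
theorem parallel {f : Cs → Cs} (hf : OP f) (hb : BaireOne f) {S : ℕ → Set St}
    (hS : ∀ m, ∀ s ∈ S m, s.1 < ω₁) (hc : ∀ m, ¬ Cov f (S m) univ) :
    ∃ a : ℕ → ℕ, ∀ (Y : Set Cs) (g : ℕ → Cs → Bool), (∀ m, Proc Y (g m) (flip ⁻¹' S m)) →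
      ∃ c, ∀ y ∈ Y, leT c y → ∃ ρ, Computable ρ ∧ ∀ m, g m y = f y (ρ (a m)) := by
  obtain ⟨e, he⟩ := exists_enum
  let Z : ℕ → Set W := fun d =>
    (⋂ n, {w | f (code fun m => w (m + 1)) n = f (code w) (e d.unpair.1 n)}) ∩
      ⋂ n, {w | f (w 0) n = f (code w) (e d.unpair.2 n)}
  have hZ : ∀ w, ∃ d, w ∈ Z d := by
    intro w
    obtain ⟨ρ, hρ, h1⟩ := hf _ _ (leT_code_shift w)
    obtain ⟨σ, hσ, h2⟩ := hf _ _ (leT_code_zero w)
    obtain ⟨i, rfl⟩ := he ρ hρ
    obtain ⟨j, rfl⟩ := he σ hσ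
    refine ⟨Nat.pair i j, mem_iInter.2 fun n => ?_, mem_iInter.2 fun n => ?_⟩
    · simpa only [Nat.unpair_pair, mem_ofPred_eq] using h1 n
    · simpa only [Nat.unpair_pair, mem_ofPred_eq] using h2 n
  have hpre : ∀ φ : W → Cs, Continuous φ → ∀ n b, IsGδ {w | f (φ w) n = b} :=
    fun φ hφ n b => (hb n b).preimage hφ
  have hG : ∀ d, IsGδ (Z d) := fun d =>
    (IsGδ.iInter fun n => isGδ_eq
      (hpre (fun w => code fun m => w (m + 1)) (continuous_code.comp
        (continuous_pi fun m => continuous_apply (m + 1))) n)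
      (hpre code continuous_code _)).inter
    (IsGδ.iInter fun n => isGδ_eq (hpre (fun w => w 0) (continuous_apply 0) n)
      (hpre code continuous_code _))
  obtain ⟨A, d, hA, hd⟩ := exists_base (fun m => covId f (S m)) hc hZ
  choose a ha using fun m => exists_bit (hS m) (hA m)
  let κ : ℕ → ℕ → ℕ := fun i => Nat.rec id (fun i k n => k (e (d i).unpair.1 n)) i
  refine ⟨fun m => κ m (e (d m).unpair.2 (a m)), fun Y g hg => ?_⟩
  obtain ⟨θ, hlc, hθ⟩ := exists_sim (I := fun m => covId f (S m)) (B := fun m y => f y (a m))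
    (fun m => hb (a m)) (fun i => hG (d i)) hd (S := fun m => flip ⁻¹' S m)
    (fun m s hs => by
      have := ha m _ hs
      rw [flip_flip] at this
      exact this) hg
  obtain ⟨c, hc⟩ := exists_leT_of_lc (Y := Y) (θ := fun y => code (θ y)) fun n => hlc _ _
  refine ⟨c, fun y hy hcy => ?_⟩
  obtain ⟨ρ, hρ, h⟩ := hf _ _ (hc y hy hcy)
  refine ⟨ρ, hρ, fun m => ?_⟩
  have hκ : ∀ i n, f (code fun m => θ y (m + i)) n = f (code (θ y)) (κ i n) := by
    intro i
    induction i with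
    | zero => intro n; rfl
    | succ i ih =>
      intro n
      have h1 := mem_iInter.1 ((hθ y hy).2 i).1 n
      simp only [mem_ofPred_eq, Nat.add_right_comm _ 1 i] at h1
      exact h1.trans (ih _)
  have h2 := mem_iInter.1 ((hθ y hy).2 m).2 (a m)
  simp only [mem_ofPred_eq, Nat.zero_add] at h2
  rw [← (hθ y hy).1 m, h2, hκ, h]

end Pool.Agent.Lib.MP_5684f0_lc
end

-- part Pool.Agent.Lib.MP_5684f0_lc.Main
section

/-!
Comparison of order preserving functions of Baire class one.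
-/

namespace Pool.Agent.Lib.MP_5684f0_lc

open Filter Topology Set Ordinal

theorem leCone_of_cov {f h : Cs → Cs} (hh : OP h) (hb : BaireOne h) {S : Set St}
    (hS : ∀ s ∈ S, s.1 < ω₁) (hf : Cov f S univ) (hn : ∀ s ∈ S, ¬ Cov h {flip s} univ) :
    leCone f h := by
  obtain ⟨Y, hY, hp⟩ := hf
  have key : ∀ l, ∃ (a : ℕ → ℕ) (c : Cs), ∀ y ∈ Y l, leT c y →
      ∃ ρ, Computable ρ ∧ ∀ m, f y m = h y (ρ (a m)) := by
    intro l
    rcases (Y l).eq_empty_or_nonempty with he | hne
    · exact ⟨id, fun _ => false, fun y hy => by simp [he] at hy⟩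
    choose s hs hs' using fun a => hp l a hne
    obtain ⟨a, ha⟩ := parallel hh hb (S := fun m => {flip (s m)})
      (fun m u hu => by rw [mem_singleton_iff.1 hu]; exact hS (s m) (hs m))
      (fun m => hn _ (hs m))
    obtain ⟨c, hc⟩ := ha (Y l) (fun m y => f y m) fun m => (hs' m).mono Subset.rfl
      (fun u hu => by rw [mem_singleton_iff.1 hu]; rfl)
    exact ⟨a, c, hc⟩
  choose a c hc using key
  choose d hd using fun l => exists_rec (a l)
  obtain ⟨c', hc'⟩ := exists_upper c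
  obtain ⟨d', hd'⟩ := exists_upper d
  obtain ⟨u, hu, hu'⟩ := exists_upper2 c' d'
  refine ⟨u, fun y hy => ?_⟩
  obtain ⟨l, hl⟩ := mem_iUnion.1 (hY (mem_univ y))
  obtain ⟨ρ, hρ, h1⟩ := hc l y hl ((hc' l).trans (hu.trans hy))
  exact ⟨fun n => ρ (a l n), tr_iff.2 ((Rec.of_computable hρ).comp
    ((hd l).mono ((hd' l).trans hu'))), h1⟩

/-- Diagonalisation: if both guesses can start at level `β`, lower levels suffice. -/
theorem cov_lower {f : Cs → Cs} (hf : OP f) (hb : BaireOne f) {β : Ordinal.{0}} (hβ : β < ω₁)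
    (h0 : Cov f {(β, false)} univ) (h1 : Cov f {(β, true)} univ) :
    Cov f {s | s.1 < β} univ := by
  by_contra hc
  obtain ⟨a, ha⟩ := parallel hf hb (S := fun _ => {s | s.1 < β})
    (fun _ s hs => lt_trans hs hβ) fun _ => hc
  obtain ⟨e, he⟩ := exists_enum
  obtain ⟨Y, hY, hp⟩ := h0
  obtain ⟨Y', hY', hp'⟩ := h1
  have key : ∀ l : ℕ, ∃ c, ∀ y ∈ Y l.unpair.1 ∩ Y' l.unpair.2, leT c y →
      ∃ ρ, Computable ρ ∧ ∀ m, (!f y (e m (a m))) = f y (ρ (a m)) := by
    intro l
    rcases (Y l.unpair.1 ∩ Y' l.unpair.2).eq_empty_or_nonempty with hem | hne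
    · exact ⟨fun _ => false, fun y hy => by simp [hem] at hy⟩
    refine ha _ (fun m y => !f y (e m (a m))) fun m => Proc.not ?_
    obtain ⟨s, hs, h⟩ := hp _ (e m (a m)) (hne.mono inter_subset_left)
    obtain ⟨s', hs', h'⟩ := hp' _ (e m (a m)) (hne.mono inter_subset_right)
    rw [mem_singleton_iff.1 hs] at h
    rw [mem_singleton_iff.1 hs'] at h'
    exact (h.mono inter_subset_left Subset.rfl).merge (h'.mono inter_subset_right Subset.rfl)
  choose c hc' using key
  obtain ⟨y, hy⟩ := exists_upper c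
  obtain ⟨i, hi⟩ := mem_iUnion.1 (hY (mem_univ y))
  obtain ⟨j, hj⟩ := mem_iUnion.1 (hY' (mem_univ y))
  obtain ⟨ρ, hρ, h⟩ := hc' (Nat.pair i j) y (by simpa using ⟨hi, hj⟩) (hy _)
  obtain ⟨m, rfl⟩ := he ρ hρ
  simpa using h m

/-- The invariants of a function: a level and a case label. -/
structure Inv (f : Cs → Cs) (β : Ordinal.{0}) (k : Option Bool) (S : Set St) : Prop where
  lt : ∀ s ∈ S, s.1 < ω₁
  cov : Cov f S univ
  min : ∀ s : St, Cov f {s} univ → β ≤ s.1
  le : ∀ s ∈ S, s.1 < β ∨ (k = some s.2 ∧ s.1 = β)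
  hard : ∀ b, k = some b → ¬ Cov f {(β, !b)} univ

theorem exists_inv {f : Cs → Cs} (hf : OP f) (hb : BaireOne f) : ∃ β k S, Inv f β k S := by
  obtain ⟨s0, hs0, hc0⟩ := exists_cov hb
  obtain ⟨_, ⟨s, hs, rfl⟩, hm⟩ := wellFounded_lt.has_min
    ((fun s : St => s.1) '' {s | Cov f {s} univ}) ⟨_, s0, hc0, rfl⟩
  have hmin : ∀ u : St, Cov f {u} univ → s.1 ≤ u.1 := fun u hu => not_lt.1 (hm _ ⟨u, hu, rfl⟩)
  have hlt : s.1 < ω₁ := lt_of_le_of_lt (hmin _ hc0) hs0
  by_cases h : Cov f {flip s} univ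
  · refine ⟨s.1, none, {u | u.1 < s.1}, fun u hu => lt_trans hu hlt, ?_, hmin,
      fun u hu => Or.inl hu, fun b hb => by simp at hb⟩
    obtain ⟨γ, k⟩ := s
    cases k
    · exact cov_lower hf hb hlt hs h
    · exact cov_lower hf hb hlt h hs
  · refine ⟨s.1, some s.2, {s}, fun u hu => by rwa [mem_singleton_iff.1 hu], hs, hmin,
      fun u hu => Or.inr (by simp [mem_singleton_iff.1 hu]), fun b hb => ?_⟩
    rw [← Option.some.inj hb]
    exact h

theorem cov_cpl {g : Cs → Cs} {s : St} (h : Cov (cpl g) {flip s} univ) : Cov g {s} univ := by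
  obtain ⟨Y, hY, hp⟩ := h
  refine ⟨Y, hY, fun l a hne => ⟨s, rfl, ?_⟩⟩
  obtain ⟨u, hu, h⟩ := hp l a hne
  rw [mem_singleton_iff.1 hu] at h
  have := h.not.mono Subset.rfl (S' := {s}) fun v hv => by
    have : flip v = flip s := hv
    rw [← flip_flip v, this, flip_flip]; rfl
  simpa [cpl] using this

theorem OP.cpl {g : Cs → Cs} (h : OP g) : OP (cpl g) := fun x y hxy => by
  obtain ⟨ρ, hρ, h⟩ := h x y hxy
  exact ⟨ρ, hρ, fun n => congrArg (!·) (h n)⟩

theorem BaireOne.cpl {g : Cs → Cs} (h : BaireOne g) : BaireOne (cpl g) := fun a b => by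
  have : {x | Pool.Agent.Lib.MP_5684f0_lc.cpl g x a = b} = {x | g x a = !b} := by
    ext x
    simp only [Pool.Agent.Lib.MP_5684f0_lc.cpl, mem_ofPred_eq]
    cases g x a <;> cases b <;> simp
  rw [this]
  exact h a _

theorem linear0 {f g : Cs → Cs} (hf : OP f) (hf' : BaireOne f) (hg : OP g) (hg' : BaireOne g) :
    leCone g f ∨ leCone f (cpl g) := by
  obtain ⟨β, k, S, h⟩ := exists_inv hf hf'
  obtain ⟨β', k', S', h'⟩ := exists_inv hg hg'
  by_cases h1 : ∀ s ∈ S', ¬ Cov f {flip s} univ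
  · exact Or.inl (leCone_of_cov hf hf' h'.lt h'.cov h1)
  refine Or.inr (leCone_of_cov hg.cpl hg'.cpl h.lt h.cov fun u hu hc => ?_)
  push Not at h1
  obtain ⟨s, hs, hs'⟩ := h1
  have hc' := cov_cpl hc
  have a1 : β ≤ s.1 := h.min (flip s) hs'
  have a2 : β' ≤ u.1 := h'.min _ hc'
  have a3 : s.1 ≤ β' := (h'.le s hs).elim le_of_lt fun h => h.2.le
  have a4 : u.1 ≤ β := (h.le u hu).elim le_of_lt fun h => h.2.le
  obtain ⟨b1, b2⟩ := (h'.le s hs).resolve_left (not_lt.2 (a2.trans (a4.trans a1)))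
  obtain ⟨c1, c2⟩ := (h.le u hu).resolve_left (not_lt.2 (a1.trans (a3.trans a2)))
  have e : β = β' := le_antisymm (a1.trans a3) (a2.trans a4)
  by_cases hk : u.2 = s.2
  · refine h.hard _ c1 ?_
    rw [hk, e, ← b2]
    exact hs'
  · refine h'.hard _ b1 ?_
    have : u = (β', !s.2) := Prod.ext (c2.trans e) (by
      revert hk
      cases u.2 <;> cases s.2 <;> simp)
    rwa [← this]

theorem wqo0 {F : ℕ → Cs → Cs} (hF : ∀ n, OP (F n)) (hF' : ∀ n, BaireOne (F n)) :
    ∃ i j, i < j ∧ leCone (F i) (F j) := by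
  choose β k S h using fun n => exists_inv (hF n) (hF' n)
  obtain ⟨k0, hk0⟩ := Finite.exists_infinite_fiber k
  have hinf : (k ⁻¹' {k0}).Infinite := infinite_coe_iff.1 hk0
  obtain ⟨_, ⟨i, hi, rfl⟩, hm⟩ := wellFounded_lt.has_min (β '' (k ⁻¹' {k0}))
    (hinf.nonempty.image _)
  obtain ⟨j, hj, hij⟩ := hinf.exists_gt i
  have hle : β i ≤ β j := not_lt.1 (hm _ ⟨j, hj, rfl⟩)
  refine ⟨i, j, hij, leCone_of_cov (hF j) (hF' j) (h i).lt (h i).cov fun s hs hc => ?_⟩
  have a1 : β j ≤ s.1 := (h j).min (flip s) hc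
  obtain ⟨b1, b2⟩ := ((h i).le s hs).resolve_left (not_lt.2 (hle.trans a1))
  refine (h j).hard s.2 ((mem_singleton_iff.1 hj).trans ((mem_singleton_iff.1 hi).symm.trans b1)) ?_
  rw [← le_antisymm hle (a1.trans b2.le), ← b2]
  exact hc

theorem Tame.normal {f : Cs → Cs} (h : Tame f) : ∃ f' c, OP f' ∧ BaireOne f' ∧
    ∀ x, leT c x → leM (f x) (f' x) ∧ leM (f' x) (f x) := by
  obtain ⟨c, hop, π, hπ, hT, hb⟩ := h
  have hc : ∀ x, leT c (π (join x c)) := fun x =>
    (leT_join_right x c).trans (hT _ (leT_join_right x c)).2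
  refine ⟨fun x => f (π (join x c)), c, fun x y hxy => hop _ _ (hc x) ?_,
    fun a b => (hb a b).preimage (continuous_join c), fun x hx => ⟨hop _ _ hx ?_,
      hop _ _ (hc x) ?_⟩⟩
  · exact (hT _ (leT_join_right x c)).1.trans ((join_leT (hxy.trans (leT_join_left y c))
      (leT_join_right y c)).trans (hT _ (leT_join_right y c)).2)
  · exact (leT_join_left x c).trans (hT _ (leT_join_right x c)).2
  · exact (hT _ (leT_join_right x c)).1.trans (join_leT (leT_refl x) hx)

theorem linear {f g : Cs → Cs} (hf : Tame f) (hg : Tame g) : leCone g f ∨ leCone f (cpl g) := by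
  obtain ⟨f', c, a1, a2, a3⟩ := hf.normal
  obtain ⟨g', d, b1, b2, b3⟩ := hg.normal
  rcases linear0 a1 a2 b1 b2 with h | h
  · exact Or.inl (leCone_of h (fun x hx => (b3 x hx).1) fun x hx => (a3 x hx).2)
  · refine Or.inr (leCone_of h (fun x hx => (a3 x hx).1) (c' := d) fun x hx => ?_)
    obtain ⟨ρ, hρ, h⟩ := (b3 x hx).2
    exact ⟨ρ, hρ, fun n => congrArg (!·) (h n)⟩

theorem wqo {F : ℕ → Cs → Cs} (hF : ∀ n, Tame (F n)) : ∃ i j, i < j ∧ leCone (F i) (F j) := by
  choose F' c a1 a2 a3 using fun n => (hF n).normal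
  obtain ⟨i, j, hij, h⟩ := wqo0 a1 a2
  exact ⟨i, j, hij, leCone_of h (fun x hx => (a3 i x hx).1) fun x hx => (a3 j x hx).2⟩

end Pool.Agent.Lib.MP_5684f0_lc
end
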